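import Pool.Agent.T6.H61.SL.Assembly
import Pool.Agent.T6.H61.SL.FIN
import Pool.Agent.T6.H61.SL.DEG
import Pool.Agent.T6.H61.SL.TOP
import Pool.Agent.T6.H61.SL.BOT
import Pool.Agent.T6.H61.SL.VX
import Pool.Agent.T6.H61.SL.VY
import Pool.Agent.T6.H61.SL.INV
import Pool.Agent.T6.H61.SL.INS
import Pool.Agent.T6.H61.SL.NIC
import Pool.Agent.T6.H61.SL.GRO
import Pool.Agent.T6.H61.SL.CNT

set_option autoImplicit false

/-!
# The BFACF algorithm in the slab of width one is not ergodic on any knot type

A polygon is its finite set of edges (`SL.Poly`: the edges of a closed self-avoiding walk), `Slab ω`: all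
vertices have third coordinate `0` or `1`.  `Mv ω ω'` is an elementary move of the BFACF algorithm in
the slab: `ω` and `ω'` are polygons in the slab, `ω'` is the symmetric difference of `ω` and the four
edges of a unit square, and the square shares one edge, two adjacent edges or three edges with `ω`.
The ergodicity classes are the classes of the equivalence relation `Relation.EqvGen Mv` which is
generated by `Mv`.  `SameKnot ω ω'`: for some starting points and orientations, the two closed
polygonal curves are related by a sequence of elementary moves of polygonal knots (`KN.Same`), so the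
polygons have the same knot type.

Theorem.  For every polygon `ω` in the slab there is a sequence `φ 0 = ω, φ 1, φ 2, …` of polygons in
the slab which have the same knot type and lie in pairwise different ergodicity classes.  So the set
of the polygons of any knot type in the slab splits into infinitely many ergodicity classes.

Idea.  The projection of a polygon in the slab, shifted a little in the top layer, is a knot diagram,
and the moves in the slab act as planar isotopies and Reidemeister moves of the types I and II, but
never of type III (three strands do not fit into two layers).  So the number of colourings with a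
structure which is involutory but not distributive (three colours; the under strand changes its colour
by a transposition or not at all) is invariant.  On the other hand, an arc of the top layer can be
replaced by an unknotted arc (with an isotopy which needs moves of type III), such that the number of
the colourings increases: the old colourings extend, and there are new ones.
-/

namespace Pool.Agent.Results.MP_dd2c10_pr.EveryKnotTypeSplits

open Pool.Agent.T6.H61 Pool.Agent.T6.H61.SL

theorem result :
    (∀ ω : Finset Ed, SL.Poly ω → Slab ω →
      ∃ φ : ℕ → Finset Ed, φ 0 = ω ∧ (∀ k, SL.Poly (φ k) ∧ Slab (φ k) ∧ SameKnot ω (φ k)) ∧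
        ∀ j k, j ≠ k → ¬ Relation.EqvGen Mv (φ j) (φ k)) ∧
    ¬ (∀ ω ω' : Finset Ed, SL.Poly ω → Slab ω → SL.Poly ω' → Slab ω' → SameKnot ω ω' →
        Relation.EqvGen Mv ω ω') := by
  have h : ∀ ω : Finset Ed, SL.Poly ω → Slab ω →
      ∃ φ : ℕ → Finset Ed, φ 0 = ω ∧ (∀ k, SL.Poly (φ k) ∧ Slab (φ k) ∧ SameKnot ω (φ k)) ∧
        ∀ j k, j ≠ k → ¬ Relation.EqvGen Mv (φ j) (φ k) := by
    intro ω hP hS
    exact final fin (inv deg fin top bot vx vy) (nic ins_) gro cnt ω hP hS
  refine ⟨h, ?_⟩
  intro hall
  let w : List KN.Dir := [.ym, .xm, .yp, .xp]
  have hw : KN.SAP w := by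
    refine ⟨by decide, by decide, by decide⟩
  have hP : SL.Poly (es 0 w).toFinset := ⟨0, w, hw, rfl⟩
  have hS : Slab (es 0 w).toFinset := by
    unfold Slab
    decide
  obtain ⟨φ, h0, h1, h2⟩ := h _ hP hS
  refine h2 0 1 (by decide) ?_
  rw [h0]
  exact hall _ _ hP hS (h1 1).1 (h1 1).2.1 (h1 1).2.2

end Pool.Agent.Results.MP_dd2c10_pr.EveryKnotTypeSplits
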